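import Mathlib
import Pool.Agent.H556.KC.Gcd
import Pool.Agent.H556.GD.Core

/-!
# Common divisors of `2 ^ n - 3 ^ K` and short sums, for all `n` and `K`
-/

set_option autoImplicit false

namespace Pool.Agent.H556.KD

open Filter Topology Pool.Agent.TH932.Germs Pool.Agent.TH551.SU Pool.Agent.Y724.Vj
open Pool.Agent.H556.FG Pool.Agent.H556.FX Pool.Agent.H556.KC Pool.Agent.H556.GD

theorem gcdAll (r : ℕ) (A : ℤ) {δ : ℝ} (hδ : 0 < δ) :
    ∃ B : ℕ, ∀ n ≥ B, ∀ K : ℕ, 1 ≤ K → K ≤ n →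
      ∀ (c : Fin r → ℤ) (i j : Fin r → ℕ), (∀ t, |c t| ≤ A) → (∀ t, i t ≤ n) → (∀ t, j t ≤ n) →
      ¬ ((2 : ℤ) ^ n - 3 ^ K) ∣ ∑ t, c t * (2 ^ i t * 3 ^ j t) →
      ∀ D : ℕ, (D : ℤ) ∣ (2 : ℤ) ^ n - 3 ^ K → (D : ℤ) ∣ ∑ t, c t * (2 ^ i t * 3 ^ j t) →
      (D : ℝ) < Real.exp (δ * n) * (max ((2 : ℝ) ^ n) (3 ^ K)) ^ (1 - 1 / (r : ℝ)) := by
  classical
  by_contra hcon
  push Not at hcon
  choose N hN K hK1 hKN c i j hc hi hj hNF D hDF hDG hD using
    fun n : ℕ => hcon (n + 1)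
  have hN1 : ∀ n, 1 ≤ N n := fun n => by have := hN n; omega
  have hl3 : 0 < Real.log 3 := Real.log_pos (by norm_num)
  set L : ℕ → ℝ := fun n => N n * Real.log 3 with hLdef
  have hexpL : ∀ n, Real.exp (L n) = 3 ^ (N n) := fun n => by
    rw [hLdef]
    simp only []
    rw [mul_comm, Real.exp_mul, Real.exp_log (by norm_num), Real.rpow_natCast]
  have hNt : Tendsto (fun n => (N n : ℝ)) atTop atTop := by
    apply tendsto_natCast_atTop_atTop.comp
    exact tendsto_atTop_mono (fun n => (Nat.le_succ n).trans (hN n)) tendsto_id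
  have hL : Tendsto L atTop atTop := hNt.atTop_mul_const hl3
  set Z : ℕ → ℚ := fun n => -(3 ^ K n / 2 ^ N n) with hZ
  have hZsu : ∀ n, IsSU bb (Z n) := fun n => by
    apply isSU_neg bb_prime
    rw [div_eq_mul_inv]
    exact FG.isSU_mul bb_prime (isSU_pow bb_prime su_three _)
      (FG.isSU_inv (isSU_pow bb_prime su_two _))
  have h2L : ∀ n, ∀ e ≤ N n, ((2 : ℝ)) ^ e ≤ Real.exp (L n) := by
    intro n e he
    rw [hexpL]
    exact (pow_le_pow_left₀ (by norm_num) (by norm_num) _).trans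
      (pow_le_pow_right₀ (by norm_num) he)
  have h3L : ∀ n, ∀ e ≤ N n, ((3 : ℝ)) ^ e ≤ Real.exp (L n) := by
    intro n e he
    rw [hexpL]
    exact pow_le_pow_right₀ (by norm_num) he
  have hLn : ∀ n, 0 ≤ L n := fun n => mul_nonneg (Nat.cast_nonneg _) hl3.le
  have hZB : Bd L (gm Z) := by
    refine ⟨fun n => -3 ^ (K n), fun n => 2 ^ (N n), 1, ?_, ?_, ?_, ?_⟩
    · refine Eventually.of_forall fun n => ?_
      push_cast
      rw [abs_neg, one_mul, abs_of_pos (by positivity)]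
      exact h3L n _ (hKN n)
    · refine Eventually.of_forall fun n => ?_
      push_cast
      rw [one_mul, abs_of_pos (by positivity)]
      exact h2L n _ le_rfl
    · exact Eventually.of_forall fun n => pow_ne_zero _ (by norm_num)
    · congr 1
      funext n
      rw [hZ]
      push_cast
      rw [neg_div]
  have hZden : ∀ n, ((2 : ℤ) ^ (N n)) ∣ (Z n).den := by
    intro n
    have h1 : (Z n).num * 2 ^ (N n) = -(3 ^ (K n)) * (Z n).den := by
      have h2 : Z n * (Z n).den = (Z n).num := Rat.mul_den_eq_num _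
      have h3 : (((Z n).num * 2 ^ (N n) : ℤ) : ℚ) = ((-(3 ^ (K n)) * (Z n).den : ℤ) : ℚ) := by
        push_cast
        rw [← h2, hZ]
        simp only []
        field_simp
      exact_mod_cast h3
    have h4 : IsCoprime ((2 : ℤ) ^ (N n)) (-(3 ^ (K n))) := by
      apply IsCoprime.neg_right
      apply IsCoprime.pow
      norm_num
    exact h4.dvd_of_dvd_mul_left ⟨_, by rw [← h1]; ring⟩
  have hZK : gm Z ∉ KK L hL := by
    intro h
    rw [mem_KK_iff] at h
    have hl2 : 0 < Real.log 2 := Real.log_pos (by norm_num)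
    have hl23 : Real.log 3 ≤ 2 * Real.log 2 := by
      have h1 : Real.log 3 ≤ Real.log 4 := Real.log_le_log (by norm_num) (by norm_num)
      have h2 : Real.log 4 = 2 * Real.log 2 := by
        rw [show (4 : ℝ) = 2 ^ 2 by norm_num, Real.log_pow]
        norm_num
      linarith
    have h1 := h.2 (1 / 4) (by norm_num)
    obtain ⟨n, hn1⟩ := h1.exists
    have h3 : (2 : ℤ) ^ (N n) ≤ (Z n).den :=
      Int.le_of_dvd (by exact_mod_cast (Z n).den_pos) (hZden n)
    have h4 : (2 : ℝ) ^ (N n) ≤ Real.exp (1 / 4 * L n) := by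
      refine le_trans ?_ hn1
      have h5 : ((2 : ℤ) ^ (N n) : ℝ) ≤ (((Z n).den : ℤ) : ℝ) := by exact_mod_cast h3
      push_cast at h5
      simpa using h5
    have h5 : (2 : ℝ) ^ (N n) = Real.exp (N n * Real.log 2) := by
      rw [mul_comm, Real.exp_mul, Real.exp_log (by norm_num), Real.rpow_natCast]
    rw [h5, Real.exp_le_exp] at h4
    have h6 : (1 : ℝ) ≤ N n := by exact_mod_cast hN1 n
    have h7 : L n ≤ N n * (2 * Real.log 2) := mul_le_mul_of_nonneg_left hl23 (by linarith)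
    nlinarith
  set Q : ℕ → ℕ := fun n => ((2 : ℤ) ^ N n - 3 ^ K n).natAbs with hQ
  have hQ0 : ∀ n, Q n ≠ 0 := fun n => Int.natAbs_ne_zero.2 (two_pow_ne (hN1 n))
  have h1Z : ∀ n, 1 + Z n = (((2 : ℤ) ^ N n - 3 ^ K n : ℤ) : ℚ) / 2 ^ N n := by
    intro n
    rw [hZ]
    simp only []
    push_cast
    field_simp
    ring
  have hF0 : ∀ n, 1 + Z n ≠ 0 := by
    intro n
    rw [h1Z]
    exact div_ne_zero (by exact_mod_cast two_pow_ne (hN1 n)) (by positivity)
  have hQF : ∀ n, (Q n : ℤ) ∣ (1 + Z n).num := by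
    intro n
    rw [hQ]
    simp only []
    rw [Int.natCast_natAbs, abs_dvd]
    have h1 : (1 + Z n).num * 2 ^ (N n) = ((2 : ℤ) ^ N n - 3 ^ K n) * (1 + Z n).den := by
      have h2 : (1 + Z n) * (1 + Z n).den = (1 + Z n).num := Rat.mul_den_eq_num _
      have h3 : (((1 + Z n).num * 2 ^ (N n) : ℤ) : ℚ) =
          ((((2 : ℤ) ^ N n - 3 ^ K n) * (1 + Z n).den : ℤ) : ℚ) := by
        rw [Int.cast_mul, Int.cast_mul, ← h2, h1Z]
        push_cast
        field_simp
      exact_mod_cast h3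
    have h4 : IsCoprime ((2 : ℤ) ^ N n - 3 ^ K n) (2 ^ N n) := by
      apply IsCoprime.pow_right
      rw [isCoprime_comm]
      exact (Int.prime_two.coprime_iff_not_dvd).2 (cop_two (hN1 n))
    exact h4.dvd_of_dvd_mul_right ⟨_, h1⟩
  have hDQ : ∀ n, D n ∣ Q n := fun n => Int.natCast_dvd.1 (hDF n)
  set u : Fin r → ℕ → ℚ := fun t n => 2 ^ (i n t) * 3 ^ (j n t) with hu
  have hsum : ∀ n, ∑ t, (c n t : ℚ) * u t n = ((∑ t, c n t * (2 ^ i n t * 3 ^ j n t) : ℤ) : ℚ) := by
    intro n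
    push_cast
    rfl
  have hl2 : 0 < Real.log 2 := Real.log_pos (by norm_num)
  have hZ0 : ∀ n, Z n ≠ 0 := fun n => neg_ne_zero.2 (by positivity)
  have hHt : ∀ n, Ht (Z n) ≤ max ((2 : ℝ) ^ N n) (3 ^ K n) := by
    intro n
    have h1 : Z n = ((-(3 ^ K n) : ℤ) : ℚ) / ((2 ^ N n : ℤ) : ℚ) := by
      rw [hZ]
      push_cast
      rw [neg_div]
    have h2 : (Z n).num ∣ -(3 ^ K n) := by
      rw [h1, ← Rat.divInt_eq_div]
      exact Rat.num_dvd _ (by positivity)
    have h3 : ((Z n).den : ℤ) ∣ 2 ^ N n := by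
      rw [h1, ← Rat.divInt_eq_div]
      exact Rat.den_dvd _ _
    have h4 := Int.le_of_dvd (by positivity) ((dvd_neg.1 ((abs_dvd _ _).2 h2)))
    have h5 := Int.le_of_dvd (by positivity) h3
    have h4' : |((Z n).num : ℝ)| ≤ 3 ^ K n := by exact_mod_cast h4
    have h5' : ((Z n).den : ℝ) ≤ 2 ^ N n := by exact_mod_cast h5
    exact max_le (h4'.trans (le_max_right _ _)) (h5'.trans (le_max_left _ _))
  have key := coreG bb bb_prime bb_inj hL Z hZsu hZ0 hZB hZK Q hQ0 hQF hF0 (fun n => ?_)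
    (fun n v => ?_) (fun t n => c n t) u (fun t n => ?_) (fun t => ?_) (fun t => ?_) D hDQ
    (fun n => ?_) (fun n => ?_) (ε := δ / (2 * Real.log 3)) (by positivity)
  · obtain ⟨n, hn⟩ := key.exists
    have hr : 1 ≤ r := by
      by_contra h0
      have h1 : r = 0 := by omega
      subst h1
      apply hNF n
      simp
    have hr' : (1 : ℝ) ≤ r := by exact_mod_cast hr
    have hrR : (0 : ℝ) ≤ 1 - 1 / (r : ℝ) := by
      rw [sub_nonneg, div_le_one (by linarith)]
      exact hr'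
    have h1 : δ / (2 * Real.log 3) * L n = δ / 2 * N n := by
      rw [hLdef]
      field_simp
    rw [h1] at hn
    have hN1' : (1 : ℝ) ≤ N n := by exact_mod_cast hN1 n
    have h2 : Real.exp (δ / 2 * N n) < Real.exp (δ * N n) := by
      apply Real.exp_lt_exp.2
      nlinarith
    have h3 : Ht (Z n) ^ (1 - 1 / (r : ℝ)) ≤
        (max ((2 : ℝ) ^ N n) (3 ^ K n)) ^ (1 - 1 / (r : ℝ)) :=
      Real.rpow_le_rpow (by have := Ht_one (Z n); linarith) (hHt n) hrR
    have h4 : (0 : ℝ) < (max ((2 : ℝ) ^ N n) (3 ^ K n)) ^ (1 - 1 / (r : ℝ)) :=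
      Real.rpow_pos_of_pos (lt_of_lt_of_le (by positivity) (le_max_left _ _)) _
    have h5 := hD n
    have h6 : (D n : ℝ) ≤ Real.exp (δ / 2 * N n) *
        (max ((2 : ℝ) ^ N n) (3 ^ K n)) ^ (1 - 1 / (r : ℝ)) :=
      hn.trans (mul_le_mul_of_nonneg_left h3 (Real.exp_pos _).le)
    have h7 := mul_lt_mul_of_pos_right h2 h4
    linarith
  · -- size of `Q`
    have h1 : (Q n : ℝ) = |(2 : ℝ) ^ N n - 3 ^ K n| := by
      have : ((Q n : ℤ) : ℝ) = ((|(2 : ℤ) ^ N n - 3 ^ K n| : ℤ) : ℝ) := by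
        rw [hQ]
        simp only []
        rw [Int.natCast_natAbs]
      push_cast at this
      exact this
    rw [h1, abs_le]
    have h2 := h2L n (N n) le_rfl
    have h3 := h3L n (K n) (hKN n)
    constructor
    · have : (0 : ℝ) < 2 ^ N n := by positivity
      linarith
    · have : (0 : ℝ) < 3 ^ K n := by positivity
      linarith
  · rw [Nat.coprime_comm, (bb_prime v).coprime_iff_not_dvd]
    intro h
    have h1 : ((bb v : ℕ) : ℤ) ∣ (2 : ℤ) ^ N n - 3 ^ K n := by
      have h2 : ((bb v : ℕ) : ℤ) ∣ ((Q n : ℕ) : ℤ) := Int.natCast_dvd_natCast.2 h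
      rw [hQ] at h2
      simp only [] at h2
      rw [Int.natCast_natAbs, dvd_abs] at h2
      exact h2
    fin_cases v
    · exact cop_two (hN1 n) (by simpa [bb] using h1)
    · exact cop_three (hK1 n) (by simpa [bb] using h1)
  · exact FG.isSU_mul bb_prime (isSU_pow bb_prime su_two _) (isSU_pow bb_prime su_three _)
  · refine ⟨fun n => 2 ^ (i n t) * 3 ^ (j n t), fun _ => 1, 2, ?_, ?_, ?_, ?_⟩
    · refine Eventually.of_forall fun n => ?_
      push_cast
      rw [abs_of_pos (by positivity), two_mul, Real.exp_add]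
      exact mul_le_mul (h2L n _ (hi n t)) (h3L n _ (hj n t)) (by positivity) (Real.exp_pos _).le
    · refine Eventually.of_forall fun n => ?_
      push_cast
      rw [abs_one]
      exact Real.one_le_exp (by have := hLn n; linarith)
    · exact Eventually.of_forall fun n => one_ne_zero
    · congr 1
      funext n
      rw [hu]
      push_cast
      rw [div_one]
  · intro ε hε
    have h3 : ∀ᶠ n in atTop, Real.log (|(A : ℝ)| + 1) ≤ ε * L n :=
      (hL.const_mul_atTop hε).eventually_ge_atTop _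
    filter_upwards [ev_of_atTop h3] with n hn
    have h1 : |(c n t : ℝ)| ≤ A := by exact_mod_cast hc n t
    have h2 : (0 : ℝ) < |(A : ℝ)| + 1 := by positivity
    have h4 := Real.exp_le_exp.2 hn
    rw [Real.exp_log h2] at h4
    have h5 := le_abs_self (A : ℝ)
    linarith
  · rw [hsum, Rat.num_intCast]
    exact hDG n
  · rw [hsum, Rat.num_intCast]
    intro h
    apply hNF n
    rw [hQ] at h
    simp only [] at h
    rwa [Int.natCast_natAbs, abs_dvd] at h

end Pool.Agent.H556.KD
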