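import Mathlib
import Pool.Agent.H556.KC.Low

/-!
# `|2 ^ n - 3 ^ K|` is nearly as large as `2 ^ n` and `3 ^ K`
-/

set_option autoImplicit false

namespace Pool.Agent.H556.KD

open Filter Topology Pool.Agent.H556.KC

theorem low_max {δ : ℝ} (hδ : 0 < δ) :
    ∃ n₀ : ℕ, ∀ n ≥ n₀, ∀ K : ℕ,
      Real.exp (-(δ * n)) * max ((2 : ℝ) ^ n) (3 ^ K) ≤ |(2 : ℝ) ^ n - 3 ^ K| := by
  obtain ⟨n₀, h⟩ := low_log (half_pos hδ)
  obtain ⟨n₁, hn₁⟩ := exists_nat_ge (2 * Real.log 2 / δ)
  refine ⟨max n₀ n₁, fun n hn K => ?_⟩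
  have h1 := h n ((le_max_left _ _).trans hn) K
  have h2 : (n₁ : ℝ) ≤ n := by exact_mod_cast (le_max_right _ _).trans hn
  have h3 : Real.log 2 ≤ δ / 2 * n := by
    have h4 : 2 * Real.log 2 / δ ≤ n := hn₁.trans h2
    rw [div_le_iff₀ hδ] at h4
    linarith
  have e2 : (2 : ℝ) ^ n = Real.exp (n * Real.log 2) := by
    rw [mul_comm, Real.exp_mul, Real.exp_log (by norm_num), Real.rpow_natCast]
  have e3 : (3 : ℝ) ^ K = Real.exp (K * Real.log 3) := by
    rw [mul_comm, Real.exp_mul, Real.exp_log (by norm_num), Real.rpow_natCast]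
  set t : ℝ := K * Real.log 3 - n * Real.log 2 with ht
  have h10 : Real.exp (-(δ * n)) ≤ Real.exp (-(δ / 2 * n)) / 2 := by
    rw [le_div_iff₀ (by norm_num)]
    have h11 : Real.exp (-(δ * n)) * 2 = Real.exp (-(δ * n) + Real.log 2) := by
      rw [Real.exp_add, Real.exp_log (by norm_num)]
    rw [h11]
    apply Real.exp_le_exp.2
    linarith
  have h8 : Real.exp (-(δ / 2 * n)) ≤ min |t| 1 := by
    apply le_min
    · rw [ht, abs_sub_comm]
      exact h1
    · rw [Real.exp_le_one_iff]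
      have : (0 : ℝ) ≤ n := Nat.cast_nonneg _
      have : 0 ≤ δ / 2 * n := by positivity
      linarith
  have h9 : Real.exp (-(δ * n)) ≤ |Real.exp t - 1| := by
    refine h10.trans (le_trans ?_ (abs_exp_sub_one t))
    linarith
  have h9' : Real.exp (-(δ * n)) ≤ |Real.exp (-t) - 1| := by
    refine h10.trans (le_trans ?_ (abs_exp_sub_one (-t)))
    rw [abs_neg]
    linarith
  rw [mul_max_of_nonneg _ _ (Real.exp_pos _).le]
  apply max_le
  · have h5 : |(2 : ℝ) ^ n - 3 ^ K| = 2 ^ n * |Real.exp t - 1| := by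
      rw [e2, e3, abs_sub_comm]
      have h6 : Real.exp (K * Real.log 3) - Real.exp (n * Real.log 2) =
          Real.exp (n * Real.log 2) * (Real.exp t - 1) := by
        rw [mul_sub, mul_one, ← Real.exp_add, ht]
        congr 2
        ring
      rw [h6, abs_mul, abs_of_pos (Real.exp_pos _)]
    rw [h5, mul_comm]
    exact mul_le_mul_of_nonneg_left h9 (by positivity)
  · have h5 : |(2 : ℝ) ^ n - 3 ^ K| = 3 ^ K * |Real.exp (-t) - 1| := by
      rw [e2, e3]
      have h6 : Real.exp (n * Real.log 2) - Real.exp (K * Real.log 3) =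
          Real.exp (K * Real.log 3) * (Real.exp (-t) - 1) := by
        rw [mul_sub, mul_one, ← Real.exp_add, ht]
        congr 2
        ring
      rw [h6, abs_mul, abs_of_pos (Real.exp_pos _)]
    rw [h5, mul_comm]
    exact mul_le_mul_of_nonneg_left h9' (by positivity)

end Pool.Agent.H556.KD
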