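import Mathlib
import Pool.Agent.H556.KC.Dyn
import Pool.Agent.H556.KC.Scale
import Pool.Agent.H556.KD.Gcd
import Pool.Agent.H556.KD.Low

/-!
# Cycles of the `3x+k` maps whose parity words are products of few powers, all lengths
-/

set_option autoImplicit false

namespace Pool.Agent.H556.KD

open Filter Topology Pool.Agent.H556.KC

lemma Sh.mono {A A' : ℤ} (hA : A ≤ A') {J r : ℕ} {N : ℤ} (h : Sh A J r N) : Sh A' J r N := by
  obtain ⟨c, i, j, h1, h2, h3, h4⟩ := h
  exact ⟨c, i, j, fun t => (h1 t).trans hA, h2, h3, h4⟩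

/-- **the numerators are short sums**, first and last terms apart -/
theorem short (U : ℕ) (l : List (List ℤ × ℕ)) (hl : ∀ u ∈ l, u.1.length ≤ U)
    (h01 : ∀ u ∈ l, ∀ a ∈ u.1, a = 0 ∨ a = 1) :
    ∃ cf cl : ℤ, |cf| ≤ |den U| * 4 ^ U ∧ |cl| ≤ |den U| * 4 ^ U ∧
    Sh (2 * (|den U| * 4 ^ U)) ((l.map fun u => pw u.1 u.2).flatten).length (l.length - 1)
      (den U * V ((l.map fun u => pw u.1 u.2).flatten) -
        cl * 2 ^ ((l.map fun u => pw u.1 u.2).flatten).length +
        cf * 3 ^ (ones ((l.map fun u => pw u.1 u.2).flatten))) := by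
  have hA : 0 ≤ |den U| * 4 ^ U := by positivity
  set A : ℤ := |den U| * 4 ^ U with hAdef
  induction l with
  | nil =>
    refine ⟨0, 0, by simpa using hA, by simpa using hA, ?_⟩
    simpa [V] using Sh.zero (2 * A) 0
  | cons p l ih =>
    obtain ⟨u, s⟩ := p
    have ih' := ih (fun u hu => hl u (List.mem_cons_of_mem _ hu))
      (fun u hu => h01 u (List.mem_cons_of_mem _ hu))
    have hu : u.length ≤ U := hl _ List.mem_cons_self
    have hu01 : ∀ a ∈ u, a = 0 ∨ a = 1 := h01 _ List.mem_cons_self
    simp only [List.map_cons, List.flatten_cons, List.length_append, List.length_cons]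
    rcases Nat.eq_zero_or_pos u.length with h0 | h0
    · -- the empty word
      obtain ⟨cf, cl, hcf, hcl, hsh⟩ := ih'
      set W := (l.map fun u => pw u.1 u.2).flatten with hW
      have h2 : u = [] := List.length_eq_zero_iff.1 h0
      have h3 : pw u s = [] := by
        apply List.length_eq_zero_iff.1
        rw [pw_length, h0]
        simp
      refine ⟨cf, cl, hcf, hcl, ?_⟩
      rw [h3, List.nil_append, List.length_nil, zero_add]
      exact hsh.pad (by positivity) (by omega)
    · obtain ⟨e, he⟩ := dvd_den (U := U) h0 hu ((ones_le u).trans hu)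
      have hF0 : (2 : ℤ) ^ u.length - 3 ^ ones u ≠ 0 := two_pow_ne h0
      have h5 : den U * V (pw u s) = (e * V u) * (2 ^ (u.length * s) - 3 ^ (ones u * s)) := by
        have h6 := V_pw u s
        apply mul_left_cancel₀ hF0
        rw [he]
        linear_combination ((2 : ℤ) ^ u.length - 3 ^ ones u) * e * h6
      have hc : |e * V u| ≤ A := by
        obtain ⟨h7, h8⟩ := V_bound hu01
        rw [abs_mul, abs_of_nonneg h7]
        have h9 : |e| ≤ |den U| := by
          rw [he, abs_mul]
          exact le_mul_of_one_le_left (abs_nonneg _) (Int.one_le_abs hF0)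
        have h10 : V u ≤ 4 ^ U := h8.trans (pow_le_pow_right₀ (by norm_num) hu)
        exact mul_le_mul h9 h10 h7 (abs_nonneg _)
      rcases eq_or_ne l [] with hl0 | hl0
      · subst hl0
        refine ⟨e * V u, e * V u, hc, hc, ?_⟩
        simp only [List.map_nil, List.flatten_nil, List.append_nil, List.length_nil, add_zero,
          zero_add, Nat.sub_self]
        have h14 : den U * V (pw u s) - e * V u * 2 ^ (pw u s).length +
            e * V u * 3 ^ ones (pw u s) = 0 := by
          rw [h5, pw_length, pw_ones]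
          ring
        rw [h14]
        obtain ⟨c, i, j, -⟩ := Sh.zero (2 * A) 0
        exact ⟨c, i, j, fun t => t.elim0, fun t => t.elim0, fun t => t.elim0, by simp⟩
      · obtain ⟨cf, cl, hcf, hcl, hsh⟩ := ih'
        set W := (l.map fun u => pw u.1 u.2).flatten with hW
        refine ⟨e * V u, cl, hc, hcl, ?_⟩
        have h1 := Sh.two hsh (pw u s).length
        have hcc : |e * V u - cf| ≤ 2 * A := by
          have := abs_sub (e * V u) cf
          linarith
        have h11 := Sh.add h1 hcc (i := u.length * s) (j := ones W) (by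
          rw [pw_length]; omega) ((ones_le W).trans (by omega))
        have hlen : 1 ≤ l.length := List.length_pos_iff.2 hl0
        have h13 : l.length - 1 + 1 = l.length + 1 - 1 := by omega
        rw [h13] at h11
        have h14 : den U * V (pw u s ++ W) - cl * 2 ^ ((pw u s).length + W.length) +
            e * V u * 3 ^ ones (pw u s ++ W) =
            2 ^ (pw u s).length * (den U * V W - cl * 2 ^ W.length + cf * 3 ^ ones W) +
              (e * V u - cf) * (2 ^ (u.length * s) * 3 ^ ones W) := by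
          rw [V_append, ones_append, pw_ones, pow_add, pow_add, pw_length]
          linear_combination 3 ^ ones W * h5
        rw [h14]
        exact h11

/-- **periodic points prime to `k`** -/
theorem coprime_all (m U : ℕ) {ε : ℝ} (hε : 0 < ε) :
    ∃ B : ℕ, 2 ≤ B ∧ ∀ k : ℤ, k % 2 = 1 → (B : ℤ) ≤ |k| → ∀ x : ℤ, IsCoprime x k →
      ∀ n : ℕ, 1 ≤ n → (T k)^[n] x = x → FewPowers m U (word k x n) →
      max ((2 : ℝ) ^ n) (3 ^ ones (word k x n)) ≤ |(k : ℝ)| ^ ((m : ℝ) + ε) := by
  have hl2 : 0 < Real.log 2 := Real.log_pos (by norm_num)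
  rcases Nat.eq_zero_or_pos m with hm0 | hm0
  · refine ⟨2, le_rfl, fun k hk hk2 x hxk n hn hx hw => ?_⟩
    exfalso
    obtain ⟨l, hlm, hlU, hl⟩ := hw
    have h1 : l = [] := List.length_eq_zero_iff.1 (by omega)
    rw [h1] at hl
    have h2 := word_length k x n
    rw [hl] at h2
    simp at h2
    omega
  have hm : (1 : ℝ) ≤ m := by exact_mod_cast hm0
  set δ : ℝ := Real.log 2 * ε / (2 * m * (m + ε)) with hδ
  have hδ0 : 0 < δ := by positivity
  set A : ℤ := |den U| * 4 ^ U with hA
  have hA0 : 0 ≤ A := by positivity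
  obtain ⟨B, hB⟩ := gcdAll m (2 * A) hδ0
  obtain ⟨n₀, hn₀⟩ := low_max hδ0
  refine ⟨max (3 ^ (B + n₀ + 1)) ((den U).natAbs + 1), le_trans ?_ (le_max_left _ _),
    fun k hk hk2 x hxk n hn hx hw => ?_⟩
  · calc 2 ≤ 3 ^ 1 := by norm_num
      _ ≤ _ := Nat.pow_le_pow_right (by norm_num) (by omega)
  have hk2' : (3 : ℤ) ^ (B + n₀ + 1) ≤ |k| := by
    refine le_trans ?_ hk2
    have := le_max_left (3 ^ (B + n₀ + 1)) ((den U).natAbs + 1)
    exact_mod_cast this
  have hkden : |den U| < |k| := by
    have h1 : (((den U).natAbs + 1 : ℕ) : ℤ) ≤ |k| := by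
      refine le_trans ?_ hk2
      exact_mod_cast le_max_right (3 ^ (B + n₀ + 1)) ((den U).natAbs + 1)
    push_cast at h1
    omega
  have hkR : (3 : ℝ) ^ (B + n₀ + 1) ≤ |(k : ℝ)| := by exact_mod_cast hk2'
  have hk1R : (1 : ℝ) < |(k : ℝ)| := by
    refine lt_of_lt_of_le ?_ hkR
    exact one_lt_pow₀ (by norm_num) (by omega)
  have hme : (1 : ℝ) ≤ (m : ℝ) + ε := by linarith
  have hKn : ones (word k x n) ≤ n := by
    have := ones_le (word k x n)
    rwa [word_length] at this
  by_cases hbig : n < B + n₀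
  · have h1 : |(k : ℝ)| ≤ |(k : ℝ)| ^ ((m : ℝ) + ε) := by
      conv_lhs => rw [← Real.rpow_one |(k : ℝ)|]
      exact Real.rpow_le_rpow_of_exponent_le hk1R.le hme
    refine le_trans ?_ (hkR.trans h1)
    apply max_le
    · calc (2 : ℝ) ^ n ≤ 3 ^ n := pow_le_pow_left₀ (by norm_num) (by norm_num) _
        _ ≤ _ := pow_le_pow_right₀ (by norm_num) (by omega)
    · exact pow_le_pow_right₀ (by norm_num) (by omega)
  push Not at hbig
  have hk0 : k ≠ 0 := by
    rintro rfl
    norm_num at hk1R
  have hunit : ¬ IsUnit k := by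
    intro hu
    rw [Int.isUnit_iff] at hu
    rcases hu with rfl | rfl <;> norm_num at hk1R
  -- the number of odd terms is positive
  have hK1 : 1 ≤ ones (word k x n) := by
    by_contra h0
    have h1 : ones (word k x n) = 0 := by omega
    have h2 := all_even h1
    rw [hx] at h2
    have h3 : x * (2 ^ n - 1) = 0 := by linear_combination h2
    have h4 : (2 : ℤ) ^ n - 1 ≠ 0 := by
      have : (2 : ℤ) ≤ 2 ^ n := by
        calc (2 : ℤ) = 2 ^ 1 := by norm_num
          _ ≤ 2 ^ n := pow_le_pow_right₀ (by norm_num) hn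
      omega
    have h5 : x = 0 := (mul_eq_zero.1 h3).resolve_right h4
    rw [h5, isCoprime_zero_left] at hxk
    exact hunit hxk
  obtain ⟨l, hlm, hlU, hl⟩ := hw
  have h01 : ∀ u ∈ l, 1 ≤ u.2 → ∀ a ∈ u.1, a = 0 ∨ a = 1 := by
    intro u hu hu2 a ha
    apply word_mem k x n a
    rw [hl, List.mem_flatten]
    refine ⟨(List.replicate u.2 u.1).flatten, List.mem_map.2 ⟨u, hu, rfl⟩, ?_⟩
    rw [List.mem_flatten]
    exact ⟨u.1, List.mem_replicate.2 ⟨by omega, rfl⟩, ha⟩
  -- remove the trivial powers
  set l' := l.filter fun u => 1 ≤ u.2 with hl'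
  have hlen : l'.length ≤ m := (List.length_filter_le _ _).trans hlm
  have hflat : ∀ L : List (List ℤ × ℕ), (L.map fun u => pw u.1 u.2).flatten =
      ((L.filter fun u => 1 ≤ u.2).map fun u => pw u.1 u.2).flatten := by
    intro L
    induction L with
    | nil => rfl
    | cons p L ih =>
      simp only [List.map_cons, List.flatten_cons, List.filter_cons]
      split_ifs with h
      · simp only [List.map_cons, List.flatten_cons, ih]
      · have h0 : p.2 = 0 := by simpa using h
        have h1 : pw p.1 p.2 = [] := by rw [h0]; simp [pw]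
        rw [h1, List.nil_append, ih]
  have hword : word k x n = (l'.map fun u => pw u.1 u.2).flatten := by
    rw [hl, hl', ← hflat]
    rfl
  obtain ⟨cf, cl, hcf, hcl, hsh⟩ := short U l' (fun u hu => hlU u (List.mem_of_mem_filter hu))
    (fun u hu => by
      have h1 := List.mem_filter.1 hu
      exact h01 u h1.1 (by simpa using h1.2))
  rw [← hword, word_length] at hsh
  set F : ℤ := 2 ^ n - 3 ^ (ones (word k x n)) with hF
  set N : ℤ := V (word k x n) with hNdef
  have hcc : |cl - cf| ≤ 2 * A := by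
    have := abs_sub cl cf
    linarith
  have hsh2 := Sh.add hsh hcc (i := 0) (j := ones (word k x n)) (Nat.zero_le _) hKn
  obtain ⟨c, i, j, hc, hi, hj, hN⟩ := hsh2.pad (by positivity) (r' := m) (by omega)
  have hNe : den U * N - cl * 2 ^ n + cf * 3 ^ ones (word k x n) +
      (cl - cf) * (2 ^ 0 * 3 ^ ones (word k x n)) = den U * N - cl * F := by
    rw [hF]
    ring
  rw [hNe] at hN
  have hF0 : F ≠ 0 := two_pow_ne hn
  have h1 : x * F = k * N := by
    have := orbit hk x n
    rw [hx] at this
    rw [hF]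
    linear_combination this
  have hkF : k ∣ F := hxk.symm.dvd_of_dvd_mul_left ⟨N, h1⟩
  obtain ⟨q, hq⟩ := hkF
  have hq0 : q ≠ 0 := by
    rintro rfl
    rw [mul_zero] at hq
    exact hF0 hq
  have hxq : x * q = N := by
    rw [hq] at h1
    have h2 : k * (x * q) = k * N := by linear_combination h1
    exact mul_left_cancel₀ hk0 h2
  have hNF : ¬ F ∣ den U * N - cl * F := by
    intro h2
    have h3 : F ∣ den U * N := by
      have := dvd_add h2 (Dvd.intro_left cl rfl)
      rwa [sub_add_cancel] at this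
    obtain ⟨e, he⟩ := h3
    rw [← hxq, hq] at he
    have h2 : q * (den U * x) = q * (k * e) := by linear_combination he
    have h3 := mul_left_cancel₀ hq0 h2
    have h4 : k ∣ den U * x := ⟨e, h3⟩
    have h5 : k ∣ den U := hxk.symm.dvd_of_dvd_mul_right h4
    have h6 := Int.le_of_dvd (abs_pos.2 (den_ne U)) ((abs_dvd_abs _ _).2 h5)
    linarith
  have hqF : q ∣ F := ⟨k, by rw [hq]; ring⟩
  have key := hB n (by omega) (ones (word k x n)) hK1 hKn c i j hc hi hj
    (by rw [← hN]; exact hNF) q.natAbs (by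
      rw [Int.natCast_natAbs, abs_dvd]
      exact hqF) (by
      rw [Int.natCast_natAbs, abs_dvd, ← hN]
      exact dvd_sub ⟨den U * x, by rw [← hxq]; ring⟩ (hqF.mul_left _))
  have h5 := hn₀ n (by omega) (ones (word k x n))
  set H : ℝ := max ((2 : ℝ) ^ n) (3 ^ ones (word k x n)) with hH
  have hH2 : (2 : ℝ) ^ n ≤ H := le_max_left _ _
  have hHpos : 0 < H := lt_of_lt_of_le (by positivity) hH2
  have h6 : |(2 : ℝ) ^ n - 3 ^ ones (word k x n)| = |(k : ℝ)| * (q.natAbs : ℝ) := by
    have h7 : ((F : ℤ) : ℝ) = ((k * q : ℤ) : ℝ) := by rw [hq]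
    rw [hF] at h7
    push_cast at h7
    rw [h7, abs_mul]
    congr 1
    rw [Nat.cast_natAbs]
    push_cast
    rfl
  rw [h6] at h5
  have hHsplit : H = H ^ (1 / (m : ℝ)) * H ^ (1 - 1 / (m : ℝ)) := by
    rw [← Real.rpow_add hHpos]
    ring_nf
    rw [Real.rpow_one]
  have hP : 0 < H ^ (1 - 1 / (m : ℝ)) := Real.rpow_pos_of_pos hHpos _
  have h7 : Real.exp (-(2 * δ * n)) * H ^ (1 / (m : ℝ)) ≤ |(k : ℝ)| := by
    have h8 : Real.exp (-(δ * n)) * (H ^ (1 / (m : ℝ)) * H ^ (1 - 1 / (m : ℝ))) ≤
        |(k : ℝ)| * (Real.exp (δ * n) * H ^ (1 - 1 / (m : ℝ))) := by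
      rw [← hHsplit]
      exact h5.trans (mul_le_mul_of_nonneg_left key.le (abs_nonneg _))
    have h9 : Real.exp (-(δ * n)) = Real.exp (-(2 * δ * n)) * Real.exp (δ * n) := by
      rw [← Real.exp_add]
      ring_nf
    rw [h9] at h8
    have h10 : (Real.exp (-(2 * δ * n)) * H ^ (1 / (m : ℝ))) *
        (Real.exp (δ * n) * H ^ (1 - 1 / (m : ℝ))) ≤
        |(k : ℝ)| * (Real.exp (δ * n) * H ^ (1 - 1 / (m : ℝ))) := by
      refine le_trans (le_of_eq ?_) h8
      ring
    exact le_of_mul_le_mul_right h10 (by positivity)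
  have hkpos : 0 < |(k : ℝ)| := by linarith
  have h8 : -(2 * δ * n) + 1 / m * Real.log H ≤ Real.log |(k : ℝ)| := by
    have h9 := Real.log_le_log (by positivity) h7
    rw [Real.log_mul (Real.exp_pos _).ne' (Real.rpow_pos_of_pos hHpos _).ne', Real.log_exp,
      Real.log_rpow hHpos] at h9
    exact h9
  have h9 : n * Real.log 2 ≤ Real.log H := by
    have h10 := Real.log_le_log (by positivity) hH2
    rwa [Real.log_pow] at h10
  have h10 : Real.log H ≤ (m + ε) * Real.log |(k : ℝ)| := by
    have h11 : 2 * δ * n ≤ ε / (m * (m + ε)) * Real.log H := by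
      have h12 : 2 * δ * n = ε / (m * (m + ε)) * (n * Real.log 2) := by
        rw [hδ]
        field_simp
      rw [h12]
      exact mul_le_mul_of_nonneg_left h9 (by positivity)
    have h13 : Real.log H = (m + ε) * (1 / m * Real.log H - ε / (m * (m + ε)) * Real.log H) := by
      field_simp
      ring
    rw [h13]
    exact mul_le_mul_of_nonneg_left (by linarith) (by positivity)
  rw [← Real.log_le_log_iff hHpos (Real.rpow_pos_of_pos hkpos _), Real.log_rpow hkpos]
  exact h10

end Pool.Agent.H556.KD
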