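import Mathlib
import Pool.Agent.H556.KC.Scale
import Pool.Agent.H556.KD.Dyn

/-!
# The general case: common factors of the periodic point and `k`
-/

set_option autoImplicit false

namespace Pool.Agent.H556.KD

open Pool.Agent.H556.KC

theorem general (m U : ℕ) {ε : ℝ} (hε : 0 < ε) :
    ∃ B : ℕ, ∀ k : ℤ, k % 2 = 1 → ∀ x : ℤ, (B : ℤ) * Int.gcd x k ≤ |k| →
      ∀ n : ℕ, 1 ≤ n → (T k)^[n] x = x → FewPowers m U (word k x n) →
      max ((2 : ℝ) ^ n) (3 ^ (word k x n).count 1) ≤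
        (|(k : ℝ)| / Int.gcd x k) ^ ((m : ℝ) + ε) := by
  obtain ⟨B, hB2, hB⟩ := coprime_all m U hε
  refine ⟨B, fun k hk x hkx n hn hx hw => ?_⟩
  have hk0 : k ≠ 0 := by
    rintro rfl
    norm_num at hk
  have hg0 : Int.gcd x k ≠ 0 := by
    rw [Ne, Int.gcd_eq_zero_iff]
    exact fun h => hk0 h.2
  set g : ℤ := ((Int.gcd x k : ℕ) : ℤ) with hg
  have hg0' : g ≠ 0 := by rw [hg]; exact_mod_cast hg0
  have hgpos : 0 < g := by
    have : 0 ≤ g := by rw [hg]; exact Int.natCast_nonneg _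
    omega
  obtain ⟨k', hk'⟩ : g ∣ k := Int.gcd_dvd_right _ _
  obtain ⟨x', hx'⟩ : g ∣ x := Int.gcd_dvd_left _ _
  have hodd : g % 2 = 1 ∧ k' % 2 = 1 := by
    have h1 : Odd (g * k') := by rw [← hk']; exact Int.odd_iff.2 hk
    rw [Int.odd_mul] at h1
    exact ⟨Int.odd_iff.1 h1.1, Int.odd_iff.1 h1.2⟩
  have hcop : IsCoprime x' k' := by
    have h1 := Int.gcd_eq_gcd_ab x k
    rw [← hg] at h1
    refine ⟨Int.gcdA x k, Int.gcdB x k, ?_⟩
    apply mul_left_cancel₀ hg0'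
    rw [mul_one]
    conv_rhs => rw [h1]
    linear_combination (-Int.gcdA x k) * hx' - Int.gcdB x k * hk'
  have habs : |k| = g * |k'| := by rw [hk', abs_mul, abs_of_pos hgpos]
  have hBk : (B : ℤ) ≤ |k'| := by
    rw [habs, mul_comm] at hkx
    exact le_of_mul_le_mul_left hkx hgpos
  have e1 : (T k')^[n] x' = x' := by
    have h1 : (T k)^[n] x = g * (T k')^[n] x' := by
      conv_lhs => rw [hk', hx']
      exact iter_scale hodd.1 hodd.2 x' n
    rw [h1] at hx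
    rw [hx'] at hx
    exact mul_left_cancel₀ hg0' hx
  have e2 : word k x n = word k' x' n := by
    conv_lhs => rw [hk', hx']
    exact word_scale hodd.1 hodd.2 x' n
  rw [e2] at hw ⊢
  have key := hB k' hodd.2 hBk x' hcop n hn e1 hw
  have h3 : |(k : ℝ)| / (Int.gcd x k : ℝ) = |(k' : ℝ)| := by
    have h4 : ((|k| : ℤ) : ℝ) = ((g * |k'| : ℤ) : ℝ) := by rw [habs]
    push_cast at h4
    have h5 : (g : ℝ) = (Int.gcd x k : ℝ) := by rw [hg]; push_cast; rfl
    rw [h4, h5, mul_comm, mul_div_assoc, div_self (by exact_mod_cast hg0), mul_one]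
  rw [h3]
  exact key

end Pool.Agent.H556.KD
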