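import Mathlib
import Pool.Agent.H556.KC.Defs

/-!
# Cycles with parity word `((110)^a (101)^a)^j`
-/

set_option autoImplicit false

namespace Pool.Agent.H556.KD

open Pool.Agent.H556.KC

lemma T_of_even {k x y : ℤ} (h : x = 2 * y) : T k x = y := by
  unfold T
  rw [if_pos (by omega)]
  omega

lemma T_of_odd {k x y : ℤ} (hx : x % 2 = 1) (h : 3 * x + k = 2 * y) : T k x = y := by
  unfold T
  rw [if_neg (by omega)]
  omega

lemma word_add (k x : ℤ) (n n' : ℕ) : word k x (n + n') = word k x n ++ word k ((T k)^[n] x) n' := by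
  induction n generalizing x with
  | zero => simp [word]
  | succ n ih =>
    rw [Nat.succ_add]
    simp only [word, ih, List.cons_append, Function.iterate_succ_apply]

/-- three steps `110` -/
lemma step1 {k c : ℤ} (hk : k % 2 = 1) :
    (T k)^[3] (-5 * k - 16 * c) = -5 * k - 2 * (9 * c) ∧
      word k (-5 * k - 16 * c) 3 = [1, 1, 0] := by
  have e1 : (-5 * k - 16 * c) % 2 = 1 := by omega
  have h1 : T k (-5 * k - 16 * c) = -7 * k - 24 * c := T_of_odd e1 (by ring)
  have e2 : (-7 * k - 24 * c) % 2 = 1 := by omega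
  have h2 : T k (-7 * k - 24 * c) = -10 * k - 36 * c := T_of_odd e2 (by ring)
  have e3 : (-10 * k - 36 * c) % 2 = 0 := by omega
  have h3 : T k (-10 * k - 36 * c) = -5 * k - 2 * (9 * c) := T_of_even (by ring)
  constructor
  · simp only [Function.iterate_succ_apply, Function.iterate_zero_apply, h1, h2, h3]
  · simp only [word, h1, h2, e1, e2, e3]

/-- three steps `101` -/
lemma step2 {k c : ℤ} (hk : k % 2 = 1) :
    (T k)^[3] (-7 * k + 16 * c) = -7 * k + 2 * (9 * c) ∧
      word k (-7 * k + 16 * c) 3 = [1, 0, 1] := by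
  have e1 : (-7 * k + 16 * c) % 2 = 1 := by omega
  have h1 : T k (-7 * k + 16 * c) = -10 * k + 24 * c := T_of_odd e1 (by ring)
  have e2 : (-10 * k + 24 * c) % 2 = 0 := by omega
  have h2 : T k (-10 * k + 24 * c) = -5 * k + 12 * c := T_of_even (by ring)
  have e3 : (-5 * k + 12 * c) % 2 = 1 := by omega
  have h3 : T k (-5 * k + 12 * c) = -7 * k + 2 * (9 * c) := T_of_odd e3 (by ring)
  constructor
  · simp only [Function.iterate_succ_apply, Function.iterate_zero_apply, h1, h2, h3]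
  · simp only [word, h1, h2, e1, e2, e3]

lemma run1 {k : ℤ} (hk : k % 2 = 1) (i : ℕ) (c : ℤ) :
    (T k)^[3 * i] (-5 * k - 2 * (8 ^ i * c)) = -5 * k - 2 * (9 ^ i * c) ∧
      word k (-5 * k - 2 * (8 ^ i * c)) (3 * i) = (List.replicate i [1, 1, 0]).flatten := by
  induction i generalizing c with
  | zero => simp [word]
  | succ i ih =>
    obtain ⟨h1, h2⟩ := step1 (c := 8 ^ i * c) hk
    obtain ⟨h3, h4⟩ := ih (9 * c)
    have e1 : -5 * k - 2 * (8 ^ (i + 1) * c) = -5 * k - 16 * (8 ^ i * c) := by ring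
    have e2 : -5 * k - 2 * (9 * (8 ^ i * c)) = -5 * k - 2 * (8 ^ i * (9 * c)) := by ring
    rw [e2] at h1
    constructor
    · rw [Nat.mul_succ, Function.iterate_add_apply, e1, h1, h3]
      ring
    · rw [Nat.mul_succ, add_comm (3 * i) 3, word_add, e1, h1, h2, h4, List.replicate_succ,
        List.flatten_cons]

lemma run2 {k : ℤ} (hk : k % 2 = 1) (i : ℕ) (c : ℤ) :
    (T k)^[3 * i] (-7 * k + 2 * (8 ^ i * c)) = -7 * k + 2 * (9 ^ i * c) ∧
      word k (-7 * k + 2 * (8 ^ i * c)) (3 * i) = (List.replicate i [1, 0, 1]).flatten := by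
  induction i generalizing c with
  | zero => simp [word]
  | succ i ih =>
    obtain ⟨h1, h2⟩ := step2 (c := 8 ^ i * c) hk
    obtain ⟨h3, h4⟩ := ih (9 * c)
    have e1 : -7 * k + 2 * (8 ^ (i + 1) * c) = -7 * k + 16 * (8 ^ i * c) := by ring
    have e2 : -7 * k + 2 * (9 * (8 ^ i * c)) = -7 * k + 2 * (8 ^ i * (9 * c)) := by ring
    rw [e2] at h1
    constructor
    · rw [Nat.mul_succ, Function.iterate_add_apply, e1, h1, h3]
      ring
    · rw [Nat.mul_succ, add_comm (3 * i) 3, word_add, e1, h1, h2, h4, List.replicate_succ,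
        List.flatten_cons]

/-- the parameter -/
def ka (a : ℕ) : ℤ := 8 ^ a + 9 ^ a

/-- the periodic point -/
def xa (a : ℕ) : ℤ := -(7 * 8 ^ a + 5 * 9 ^ a)

lemma ka_odd {a : ℕ} (ha : 1 ≤ a) : ka a % 2 = 1 := by
  have h1 : (8 : ℤ) ^ a % 2 = 0 := by
    obtain ⟨b, rfl⟩ : ∃ b, a = b + 1 := ⟨a - 1, by omega⟩
    rw [pow_succ]
    omega
  have h2 : (9 : ℤ) ^ a % 2 = 1 := by
    have : Odd ((9 : ℤ) ^ a) := Odd.pow (by decide)
    exact Int.odd_iff.1 this
  unfold ka
  omega

lemma base {a : ℕ} (ha : 1 ≤ a) :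
    (T (ka a))^[6 * a] (xa a) = xa a ∧ word (ka a) (xa a) (6 * a) =
      (List.replicate a [1, 1, 0]).flatten ++ (List.replicate a [1, 0, 1]).flatten := by
  have hk := ka_odd ha
  obtain ⟨h1, h2⟩ := run1 hk a 1
  obtain ⟨h3, h4⟩ := run2 hk a 1
  have e1 : -5 * ka a - 2 * (8 ^ a * 1) = xa a := by unfold ka xa; ring
  have e2 : -5 * ka a - 2 * (9 ^ a * 1) = -7 * ka a + 2 * (8 ^ a * 1) := by unfold ka; ring
  have e3 : -7 * ka a + 2 * (9 ^ a * 1) = xa a := by unfold ka xa; ring
  rw [e1, e2] at h1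
  rw [e1] at h2
  rw [e3] at h3
  have e4 : 6 * a = 3 * a + 3 * a := by ring
  constructor
  · rw [e4, Function.iterate_add_apply, h1, h3]
  · rw [e4, word_add, h1, h2, h4]

lemma coprime_xa {a : ℕ} (ha : 1 ≤ a) : Int.gcd (xa a) (ka a) = 1 := by
  rw [← Int.isCoprime_iff_gcd_eq_one]
  have h2 : IsCoprime (2 : ℤ) (ka a) := by
    rw [Int.prime_two.coprime_iff_not_dvd]
    have := ka_odd ha
    omega
  have h3 : IsCoprime ((2 : ℤ) * 8 ^ a) (ka a) := by
    apply IsCoprime.mul_left h2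
    have h4 : (8 : ℤ) ^ a = 2 ^ (3 * a) := by rw [pow_mul]; norm_num
    rw [h4]
    exact h2.pow_left
  have h5 : xa a = -((2 : ℤ) * 8 ^ a) + ka a * (-5) := by unfold xa ka; ring
  rw [h5]
  exact (h3.neg_left).add_mul_left_left (-5)

lemma iter_all {a : ℕ} (ha : 1 ≤ a) (j : ℕ) : (T (ka a))^[6 * a * j] (xa a) = xa a ∧
    word (ka a) (xa a) (6 * a * j) = (List.replicate j
      ((List.replicate a [1, 1, 0]).flatten ++ (List.replicate a [1, 0, 1]).flatten)).flatten := by
  obtain ⟨h1, h2⟩ := base ha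
  induction j with
  | zero => simp [word]
  | succ j ih =>
    obtain ⟨h3, h4⟩ := ih
    rw [Nat.mul_succ, add_comm]
    constructor
    · rw [Function.iterate_add_apply, h3, h1]
    · rw [word_add, h1, h2, h4, List.replicate_succ, List.flatten_cons]

lemma count_rep (a : ℕ) (u : List ℤ) : (List.replicate a u).flatten.count 1 = a * u.count 1 := by
  induction a with
  | zero => simp
  | succ a ih =>
    rw [List.replicate_succ, List.flatten_cons, List.count_append, ih]
    ring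

lemma few_append {m m' U : ℕ} {w w' : List ℤ} (h : FewPowers m U w)
    (h' : FewPowers m' U w') : FewPowers (m + m') U (w ++ w') := by
  obtain ⟨l, h1, h2, rfl⟩ := h
  obtain ⟨l', h1', h2', rfl⟩ := h'
  refine ⟨l ++ l', by rw [List.length_append]; omega, ?_, by simp⟩
  intro u hu
  rcases List.mem_append.1 hu with h3 | h3
  · exact h2 u h3
  · exact h2' u h3

lemma few {a : ℕ} (j : ℕ) : FewPowers (2 * j) 3 (List.replicate j
      ((List.replicate a [(1 : ℤ), 1, 0]).flatten ++ (List.replicate a [1, 0, 1]).flatten)).flatten := by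
  induction j with
  | zero => exact ⟨[], by simp, by simp, by simp⟩
  | succ j ih =>
    rw [List.replicate_succ, List.flatten_cons]
    have h1 : FewPowers 2 3
        ((List.replicate a [(1 : ℤ), 1, 0]).flatten ++ (List.replicate a [1, 0, 1]).flatten) :=
      ⟨[([1, 1, 0], a), ([1, 0, 1], a)], by simp, by simp, by simp⟩
    have h2 := few_append h1 ih
    have h3 : 2 + 2 * j = 2 * (j + 1) := by ring
    rwa [h3] at h2

/-- **the exponent is sharp** -/
theorem sharp {a j : ℕ} (ha : 1 ≤ a) :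
    Odd (ka a) ∧ (T (ka a))^[6 * a * j] (xa a) = xa a ∧ Int.gcd (xa a) (ka a) = 1 ∧
      FewPowers (2 * j) 3 (word (ka a) (xa a) (6 * a * j)) ∧
      (word (ka a) (xa a) (6 * a * j)).count 1 = 4 * a * j ∧
      (|(ka a : ℝ)| / 2) ^ (2 * j) ≤ 3 ^ (4 * a * j) := by
  obtain ⟨h1, h2⟩ := iter_all ha j
  refine ⟨Int.odd_iff.2 (ka_odd ha), h1, coprime_xa ha, ?_, ?_, ?_⟩
  · rw [h2]
    exact few j
  · rw [h2, count_rep, List.count_append, count_rep, count_rep]
    have e1 : List.count 1 [(1 : ℤ), 1, 0] = 2 := by decide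
    have e2 : List.count 1 [(1 : ℤ), 0, 1] = 2 := by decide
    rw [e1, e2]
    ring
  · have h3 : (3 : ℝ) ^ (4 * a * j) = (9 ^ a) ^ (2 * j) := by
      rw [← pow_mul, show (9 : ℝ) = 3 ^ 2 by norm_num, ← pow_mul]
      congr 1
      ring
    rw [h3]
    apply pow_le_pow_left₀ (by positivity)
    have h4 : ((8 : ℝ)) ^ a ≤ 9 ^ a := pow_le_pow_left₀ (by norm_num) (by norm_num) _
    have h5 : (ka a : ℝ) = 8 ^ a + 9 ^ a := by unfold ka; push_cast; rfl
    rw [h5, abs_of_pos (by positivity)]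
    linarith

end Pool.Agent.H556.KD
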